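import Pool.Agent.Helper63.GB2.Final

/-!
# Geometric bodies in dimensions one and two which are equidecomposable with arbitrary pieces but
not as geometric bodies
-/

namespace Pool.Agent.Results.MP_02f2ca_gt.BothDimensions

/-- For `n = 1` and for `n = 2` there are two geometric bodies in the `n`-dimensional Euclidean space
which are equidecomposable with arbitrary pieces under the full isometry group, but which are not
equidecomposable as geometric bodies. -/
theorem result : ∀ n : ℕ, n = 1 ∨ n = 2 → ∃ A B : Set (EuclideanSpace ℝ (Fin n)),
    GB.IsGeomBody A ∧ GB.IsGeomBody B ∧ GB.EquidecArb A B ∧ ¬ GB.EquidecGeom A B := by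
  rintro n (rfl | rfl)
  · exact GB.main_line
  · exact GB.main_plane

end Pool.Agent.Results.MP_02f2ca_gt.BothDimensions
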